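import Pool.Agent.Q99.SML7.Supp

/-!
# The number of coefficients of Jones polynomials of powers of braids
-/

set_option autoImplicit false

open Finset LaurentPolynomial Pool.Agent.H891R2.Jones Pool.Agent.W639.RB

namespace Q99.SML7

open Q99.SML Q99.SML2 Q99.SML3 Q99.SML5 Q99.SML6

/-- the general zero-one law in boxes -/
theorem count_gen {k : ℕ} (Q : (Fin k → ℤ) → Prop) (M : ℕ)
    (hline : ∀ (q : Fin k → ℤ) (j : Fin k) (s0 : ℤ) (Z : Finset ℤ),
      (∀ z ∈ Z, Q (Function.update q j (s0 + z))) → M + 1 ≤ Z.card →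
        ∀ z : ℤ, Q (Function.update q j (s0 + z))) :
    (∀ q, Q q) ∨ ∀ A : Fin k → Finset ℤ, {q : Fin k → ℤ | (∀ j, q j ∈ A j) ∧ Q q}.ncard ≤
      M * ∑ j, ∏ l ∈ univ.erase j, #(A l) := by
  classical
  by_cases hall : ∀ q, Q q
  · exact Or.inl hall
  right
  intro A
  have hf : {q : Fin k → ℤ | (∀ j, q j ∈ A j) ∧ Q q}.Finite := by
    apply (Fintype.piFinset A).finite_toSet.subset
    intro n hn
    rw [Finset.mem_coe, Fintype.mem_piFinset]
    exact hn.1
  rw [Set.ncard_eq_toFinset_card _ hf, ← faces_eq]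
  have h := box_count 1 one_pos M k Q ?_ A hf.toFinset ?_
  · rwa [mul_one] at h
  · intro q j s0 Z hZ hc z
    have e1 : ∀ z : ℤ, s0 + ((1 : ℕ) : ℤ) * z = s0 + z := fun z => by
      rw [Nat.cast_one, one_mul]
    simp only [e1] at hZ ⊢
    exact hline q j s0 Z hZ hc z
  · intro q hq
    rw [Set.Finite.mem_toFinset] at hq
    push Not at hall
    obtain ⟨q0, hq0⟩ := hall
    refine ⟨hq.1, hq.2, q0 - q, ?_⟩
    have h3 : q + ((1 : ℕ) : ℤ) • (q0 - q) = q0 := by
      rw [Nat.cast_one, one_smul]; abel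
    rw [h3]
    exact hq0

/-- determinants of size `n` of members of `RecD` -/
theorem minor_rec {p : ℕ} [Fact p.Prime] (a : ℤ_[p]ˣ) {D n : ℕ} (G : ℤ → ℤ[T;T⁻¹])
    (hG : ∀ e : ℤ, RecD D (fun t => spec (a ^ e) (G t))) (r c : Fin n → ℕ) :
    RecD (n.factorial * D ^ n) (fun t : ℤ => spec a
      (Matrix.of fun i j => adams ((r i + c j : ℕ) : ℤ) (G t)).det) := by
  classical
  have h1 : (fun t : ℤ => spec a (Matrix.of fun i j => adams ((r i + c j : ℕ) : ℤ) (G t)).det) =
      ∑ σ : Equiv.Perm (Fin n), ((Equiv.Perm.sign σ : ℤ) : ℤ_[p]) •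
        ∏ i, (fun t => spec (a ^ (((r (σ i) + c i : ℕ) : ℤ))) (G t)) := by
    funext t
    rw [Matrix.det_apply, map_sum, Finset.sum_apply]
    refine Finset.sum_congr rfl fun σ _ => ?_
    rw [Units.smul_def, map_zsmul, map_prod, Pi.smul_apply, Finset.prod_apply, smul_eq_mul,
      zsmul_eq_mul]
    congr 1
    refine Finset.prod_congr rfl fun i _ => ?_
    rw [Matrix.of_apply, spec_adams]
  rw [h1]
  have h2 := RecD.sum (Finset.univ : Finset (Equiv.Perm (Fin n))) (fun _ => D ^ n)
    (fun σ => ((Equiv.Perm.sign σ : ℤ) : ℤ_[p]) •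
        ∏ i, (fun t => spec (a ^ (((r (σ i) + c i : ℕ) : ℤ))) (G t))) (fun σ _ => by
      refine RecD.smul ?_ _
      have h3 := RecD.prod (Finset.univ : Finset (Fin n)) (fun _ => D)
        (fun i => (fun t => spec (a ^ (((r (σ i) + c i : ℕ) : ℤ))) (G t))) (fun i _ => hG _)
      rwa [Finset.prod_const, Finset.card_univ, Fintype.card_fin] at h3)
  rwa [Finset.sum_const, Finset.card_univ, Fintype.card_perm, Fintype.card_fin, smul_eq_mul] at h2

/-- a sequence of Laurent polynomials which is given by interpolation series at all points close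
to `1` -/
def Good (D : ℕ) (G : ℤ → ℤ[T;T⁻¹]) : Prop :=
  ∀ (p : ℕ) [Fact p.Prime], 2 < p → ∀ a : ℤ_[p]ˣ, PadicInt.toZMod (a : ℤ_[p]) = 1 →
    RecD D (fun t => spec a (G t))

/-- the number of coefficients along a line -/
theorem line_supp {D n : ℕ} (G : ℤ → ℤ[T;T⁻¹]) (hG : Good D G) (Z : Finset ℤ)
    (hZ : ∀ z ∈ Z, #(G z).coeff.support < n) (hc : n.factorial * D ^ n ≤ Z.card) (z : ℤ) :
    #(G z).coeff.support < n := by
  classical
  rw [← minors_iff]
  intro r c
  obtain ⟨p, hpr, hp⟩ := Nat.exists_infinite_primes (n.factorial * D ^ n + 3)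
  have : Fact (Nat.Prime p) := ⟨hp⟩
  obtain ⟨a, hinj, ha⟩ := exists_embedding p
  have h1 := minor_rec a G (fun e => hG p (by omega) (a ^ e) (toZMod_zpow a ha e)) r c
  have h2 := h1.eq_zero (by omega) Z (fun t ht => by
    have h3 := (minors_iff n (G t)).2 (hZ t ht) r c
    show spec a _ = 0
    rw [h3, map_zero]) hc z
  exact hinj (h2.trans (map_zero _).symm)

theorem Good.sum {ι : Type*} (s : Finset ι) (D : ι → ℕ) (G : ι → ℤ → ℤ[T;T⁻¹])
    (h : ∀ i ∈ s, Good (D i) (G i)) (c : ι → ℤ[T;T⁻¹]) :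
    Good (∑ i ∈ s, D i) (fun t => ∑ i ∈ s, c i * G i t) := by
  intro p _ hp a ha
  have h1 : (fun t : ℤ => spec a (∑ i ∈ s, c i * G i t)) =
      ∑ i ∈ s, spec a (c i) • (fun t => spec a (G i t)) := by
    funext t
    rw [map_sum, Finset.sum_apply]
    refine Finset.sum_congr rfl fun i _ => ?_
    rw [map_mul, Pi.smul_apply, smul_eq_mul]
  rw [h1]
  exact RecD.sum _ _ _ fun i hi => (h i hi p hp a ha).smul _

theorem good_family {m k : ℕ} (hm : 0 < m) (O : Outer m) (w : Fin k → Word)
    (u : Fin k → VWord) (P : ℕ) (n : Fin k → ℤ) (j : Fin k) (hP : wperm m (w j) ^ P = 1)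
    (s : ℤ) : Good (m.choose (m / 2))
      (fun t : ℤ => (familyV O w u (Function.update n j (s + P * t))).close.fPoly) :=
  fun _ _ hp a ha => member_rec hm hp a ha O w u P n j hP s

/-! ### classical families -/

theorem drawG_inl {m : ℕ} (x : Word) : ∀ O : Outer m, drawG O (x.map Sum.inl) = draw O x := by
  induction x with
  | nil => intro O; rfl
  | cons b x ih =>
    intro O
    show drawG (O.push b.1 b.2) (x.map Sum.inl) = draw (O.push b.1 b.2) x
    exact ih _

theorem family_eq {m : ℕ} : ∀ (k : ℕ) (w u : Fin k → Word) (n : Fin k → ℤ) (O : Outer m),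
    family O w u n = familyV O w (fun j => (u j).map Sum.inl) n
  | 0, _, _, _, _ => rfl
  | k + 1, w, u, n, O => by
    rw [family, familyV, drawG_inl, family_eq k]
    rfl

/-- **The number of coefficients in families of powers of braids.** -/
theorem count_supp {r k : ℕ} {m : Fin r → ℕ} (hm : ∀ i, 0 < m i) (O : ∀ i, Outer (m i))
    (w : Fin r → Fin k → Word) (u : Fin r → Fin k → VWord) (P : ℕ)
    (hP : ∀ i j, wperm (m i) (w i j) ^ P = 1) (s : Fin k → ℤ) (c : Fin r → ℤ[T;T⁻¹])
    (n : ℕ) (F : (Fin k → ℤ) → ℤ[T;T⁻¹])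
    (hF : ∀ q, F q = ∑ i, c i * (familyV (O i) (w i) (u i) (s + (P : ℤ) • q)).close.fPoly) :
    (∀ q, #(F q).coeff.support < n) ∨
      ∀ A : Fin k → Finset ℤ, {q : Fin k → ℤ | (∀ j, q j ∈ A j) ∧
          #(F q).coeff.support < n}.ncard ≤
        (n.factorial * (∑ i, (m i).choose (m i / 2)) ^ n - 1) *
          ∑ j, ∏ l ∈ univ.erase j, #(A l) := by
  classical
  refine count_gen (fun q => #(F q).coeff.support < n) _ ?_
  intro q j s0 Z hZ hc z
  have hupd : ∀ y : ℤ, s + (P : ℤ) • Function.update q j (s0 + y) =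
      Function.update (s + (P : ℤ) • q) j ((s j + P * s0) + P * y) := by
    intro y
    funext l
    by_cases hl : l = j
    · subst hl
      rw [Pi.add_apply, Pi.smul_apply, Function.update_self, Function.update_self, smul_eq_mul]
      ring
    · rw [Pi.add_apply, Pi.smul_apply, Function.update_of_ne hl, Function.update_of_ne hl,
        Pi.add_apply, Pi.smul_apply]
  have hgood : Good (∑ i, (m i).choose (m i / 2)) (fun y : ℤ => F (Function.update q j (s0 + y))) := by
    have h1 := Good.sum (Finset.univ : Finset (Fin r)) (fun i => (m i).choose (m i / 2))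
      (fun i t => (familyV (O i) (w i) (u i) (Function.update (s + (P : ℤ) • q) j
        ((s j + P * s0) + P * t))).close.fPoly)
      (fun i _ => good_family (hm i) (O i) (w i) (u i) P (s + (P : ℤ) • q) j (hP i j)
        (s j + P * s0)) c
    have h2 : (fun y : ℤ => F (Function.update q j (s0 + y))) = fun t => ∑ i, c i *
        (familyV (O i) (w i) (u i) (Function.update (s + (P : ℤ) • q) j
        ((s j + P * s0) + P * t))).close.fPoly := by
      funext y
      rw [hF, hupd]
    rw [h2]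
    exact h1
  exact line_supp _ hgood Z hZ (by omega) z

end Q99.SML7
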