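import Pool.Agent.Q99.SML6.Main

/-!
# The number of coefficients of a Laurent polynomial and determinants of `F(A^k)`
-/

set_option autoImplicit false

open Finset LaurentPolynomial

namespace Q99.SML7

open Q99.SML Q99.SML6

/-- all determinants of size `n` of the Hankel matrix of the values `F(A^k)` vanish -/
def Minors (n : ℕ) (F : ℤ[T;T⁻¹]) : Prop :=
  ∀ r c : Fin n → ℕ, (Matrix.of fun i j => adams ((r i + c j : ℕ) : ℤ) F).det = 0

theorem Minors.succ {n : ℕ} {F : ℤ[T;T⁻¹]} (h : Minors n F) : Minors (n + 1) F := by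
  intro r c
  rw [Matrix.det_succ_row_zero]
  refine Finset.sum_eq_zero fun j _ => ?_
  have h1 := h (fun i => r i.succ) (fun i => c (j.succAbove i))
  have h2 : (Matrix.of fun i j => adams ((r i + c j : ℕ) : ℤ) F).submatrix Fin.succ j.succAbove =
      Matrix.of fun i i' : Fin n => adams ((r i.succ + c (j.succAbove i') : ℕ) : ℤ) F := rfl
  rw [h2, h1, mul_zero]

theorem Minors.mono {n m : ℕ} {F : ℤ[T;T⁻¹]} (h : Minors n F) (hm : n ≤ m) : Minors m F := by
  induction m, hm using Nat.le_induction with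
  | base => exact h
  | succ m _ ih => exact ih.succ

theorem expand_supp (F : ℤ[T;T⁻¹]) :
    F = ∑ n ∈ F.coeff.support, F.coeff n • (T n : ℤ[T;T⁻¹]) := by
  classical
  apply LaurentPolynomial.ext
  intro e
  rw [AddMonoidAlgebra.coeff_sum, Finsupp.finsetSum_apply]
  have h1 : ∑ n ∈ F.coeff.support, (F.coeff n • (T n : ℤ[T;T⁻¹])).coeff e =
      ∑ n ∈ F.coeff.support, (if n = e then F.coeff e else 0) := by
    refine Finset.sum_congr rfl fun n _ => ?_
    rw [AddMonoidAlgebra.coeff_smul, Finsupp.smul_apply, T_apply]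
    split_ifs with h2
    · rw [h2, smul_eq_mul, mul_one]
    · rw [smul_zero]
  rw [h1, Finset.sum_ite_eq']
  split_ifs with h2
  · rfl
  · rwa [Finsupp.mem_support_iff, not_not] at h2

theorem repr (F : ℤ[T;T⁻¹]) (d : ℕ) : ∃ c e : Fin (#F.coeff.support + d) → ℤ,
    (∀ k : ℤ, adams k F = ∑ l, c l • (T (k * e l) : ℤ[T;T⁻¹])) ∧ (0 < d → ∃ l, c l = 0) ∧
    (d = 0 → Function.Injective e ∧ ∀ l, c l ≠ 0) := by
  classical
  set m := #F.coeff.support with hm
  let σ : F.coeff.support ≃ Fin m := F.coeff.support.equivFin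
  refine ⟨Fin.addCases (fun i => F.coeff (σ.symm i)) (fun _ => 0),
    Fin.addCases (fun i => ((σ.symm i : F.coeff.support) : ℤ)) (fun _ => 0), ?_, ?_, ?_⟩
  · intro k
    rw [Fin.sum_univ_add]
    simp only [Fin.addCases_left, Fin.addCases_right, zero_smul, Finset.sum_const_zero, add_zero]
    conv_lhs => rw [expand_supp F]
    rw [map_sum, ← Finset.sum_coe_sort]
    rw [← σ.symm.sum_comp]
    refine Finset.sum_congr rfl fun i _ => ?_
    rw [map_zsmul, adams_T]
  · intro hd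
    refine ⟨Fin.natAdd m ⟨0, hd⟩, ?_⟩
    beta_reduce
    rw [Fin.addCases_right]
  · rintro rfl
    have h1 : ∀ l : Fin (m + 0), ∃ i : Fin m, l = Fin.castAdd 0 i := fun l => ⟨l, rfl⟩
    refine ⟨fun a b hab => ?_, fun l => ?_⟩
    · obtain ⟨i, rfl⟩ := h1 a
      obtain ⟨j, rfl⟩ := h1 b
      beta_reduce at hab
      rw [Fin.addCases_left, Fin.addCases_left] at hab
      have := σ.symm.injective (Subtype.ext hab)
      rw [this]
    · obtain ⟨i, rfl⟩ := h1 l
      beta_reduce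
      rw [Fin.addCases_left]
      exact Finsupp.mem_support_iff.1 (σ.symm i).2

theorem det_repr {n : ℕ} (F : ℤ[T;T⁻¹]) (c e : Fin n → ℤ)
    (h : ∀ k : ℤ, adams k F = ∑ l, c l • (T (k * e l) : ℤ[T;T⁻¹])) (r s : Fin n → ℕ) :
    (Matrix.of fun i j => adams ((r i + s j : ℕ) : ℤ) F).det =
      (Matrix.of fun i l => (T ((r i : ℤ) * e l) : ℤ[T;T⁻¹])).det * (∏ l, (c l : ℤ[T;T⁻¹])) *
        (Matrix.of fun l j => (T ((s j : ℤ) * e l) : ℤ[T;T⁻¹])).det := by
  rw [← Matrix.det_diagonal, ← Matrix.det_mul, ← Matrix.det_mul]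
  congr 1
  ext1 i j
  rw [Matrix.of_apply, h, Matrix.mul_apply]
  refine Finset.sum_congr rfl fun l _ => ?_
  rw [Matrix.mul_diagonal, Matrix.of_apply, Matrix.of_apply, zsmul_eq_mul, Nat.cast_add, add_mul,
    T_add]
  ring

theorem T_injective : Function.Injective (T : ℤ → ℤ[T;T⁻¹]) := by
  intro a b h
  have h1 : (T a : ℤ[T;T⁻¹]).coeff b = (T b : ℤ[T;T⁻¹]).coeff b := by rw [h]
  rw [T_apply, T_apply, if_pos rfl] at h1
  by_contra hne
  rw [if_neg hne] at h1
  exact zero_ne_one h1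

theorem minors_iff (n : ℕ) (F : ℤ[T;T⁻¹]) : Minors n F ↔ #F.coeff.support < n := by
  constructor
  · intro h
    by_contra hlt
    push Not at hlt
    have h1 := h.mono hlt
    obtain ⟨c, e, h2, _, h3⟩ := repr F 0
    obtain ⟨hinj, hc⟩ := h3 rfl
    have h4 := h1 Fin.val Fin.val
    have h5 := det_repr (n := #F.coeff.support) F c e h2 Fin.val Fin.val
    rw [h4] at h5
    have hV : (Matrix.of fun l j : Fin #F.coeff.support =>
        (T (((j : ℕ) : ℤ) * e l) : ℤ[T;T⁻¹])).det ≠ 0 := by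
      have e1 : (Matrix.of fun l j : Fin #F.coeff.support =>
          (T (((j : ℕ) : ℤ) * e l) : ℤ[T;T⁻¹])) = Matrix.vandermonde (fun l => T (e l)) := by
        ext1 l j
        rw [Matrix.of_apply, Matrix.vandermonde_apply, T_pow]
      rw [e1, Matrix.det_vandermonde_ne_zero_iff]
      exact T_injective.comp hinj
    have hV' : (Matrix.of fun j l : Fin #F.coeff.support =>
        (T (((j : ℕ) : ℤ) * e l) : ℤ[T;T⁻¹])).det ≠ 0 := by
      rw [← Matrix.det_transpose]
      exact hV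
    have hC : (∏ l, ((c l : ℤ) : ℤ[T;T⁻¹])) ≠ 0 := by
      rw [Finset.prod_ne_zero_iff]
      intro l _ h0
      apply hc l
      have h6 : (((c l : ℤ) : ℤ[T;T⁻¹])).coeff 0 = 0 := by rw [h0]; rfl
      have h7 : ((c l : ℤ) : ℤ[T;T⁻¹]) = c l • (T 0 : ℤ[T;T⁻¹]) := by
        rw [T_zero, zsmul_eq_mul, mul_one]
      rw [h7, AddMonoidAlgebra.coeff_smul, Finsupp.smul_apply, T_apply, if_pos rfl, smul_eq_mul,
        mul_one] at h6
      exact h6
    exact mul_ne_zero (mul_ne_zero hV' hC) hV h5.symm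
  · intro h r s
    obtain ⟨d, rfl⟩ : ∃ d, n = #F.coeff.support + d := ⟨n - #F.coeff.support, by omega⟩
    obtain ⟨c, e, h2, h3, _⟩ := repr F d
    obtain ⟨l, hl⟩ := h3 (by omega)
    rw [det_repr F c e h2 r s]
    have hC : (∏ l, ((c l : ℤ) : ℤ[T;T⁻¹])) = 0 := by
      refine Finset.prod_eq_zero (Finset.mem_univ l) ?_
      rw [hl, Int.cast_zero]
    rw [hC, mul_zero, zero_mul]

end Q99.SML7
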